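import Mathlib

/-!
The rotation group SO(3) is path connected (via three Givens rotations).
-/

set_option autoImplicit false

namespace Pool.Agent.P.MP_8dda54_gt

open Matrix

/-- The set of rotation matrices of size three. -/
abbrev SO3 : Set (Matrix (Fin 3) (Fin 3) ℝ) :=
  (Matrix.specialOrthogonalGroup (Fin 3) ℝ : Set (Matrix (Fin 3) (Fin 3) ℝ))

/-- Rotation about the first axis. -/
noncomputable def rotX (θ : ℝ) : Matrix (Fin 3) (Fin 3) ℝ :=
  !![1, 0, 0; 0, Real.cos θ, -Real.sin θ; 0, Real.sin θ, Real.cos θ]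

/-- Rotation about the third axis. -/
noncomputable def rotZ (θ : ℝ) : Matrix (Fin 3) (Fin 3) ℝ :=
  !![Real.cos θ, -Real.sin θ, 0; Real.sin θ, Real.cos θ, 0; 0, 0, 1]

lemma rotX_mem (θ : ℝ) : rotX θ ∈ SO3 := by
  have h := Real.sin_sq_add_cos_sq θ
  refine (Matrix.mem_specialOrthogonalGroup_iff).2 ⟨?_, ?_⟩
  · rw [Matrix.mem_orthogonalGroup_iff]
    ext i j
    fin_cases i <;> fin_cases j <;>
      simp [rotX, Matrix.mul_apply, Fin.sum_univ_three] <;> nlinarith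
  · simp [rotX, Matrix.det_fin_three]; nlinarith

lemma rotZ_mem (θ : ℝ) : rotZ θ ∈ SO3 := by
  have h := Real.sin_sq_add_cos_sq θ
  refine (Matrix.mem_specialOrthogonalGroup_iff).2 ⟨?_, ?_⟩
  · rw [Matrix.mem_orthogonalGroup_iff]
    ext i j
    fin_cases i <;> fin_cases j <;>
      simp [rotZ, Matrix.mul_apply, Fin.sum_univ_three] <;> nlinarith
  · simp [rotZ, Matrix.det_fin_three]; nlinarith

lemma rotX_zero : rotX 0 = 1 := by
  ext i j
  fin_cases i <;> fin_cases j <;> simp [rotX]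

lemma rotZ_zero : rotZ 0 = 1 := by
  ext i j
  fin_cases i <;> fin_cases j <;> simp [rotZ]

lemma continuous_rotX : Continuous rotX := by
  refine continuous_matrix fun i j => ?_
  fin_cases i <;> fin_cases j <;> simp [rotX] <;> fun_prop

lemma continuous_rotZ : Continuous rotZ := by
  refine continuous_matrix fun i j => ?_
  fin_cases i <;> fin_cases j <;> simp [rotZ] <;> fun_prop

lemma joined_of_family (R : ℝ → Matrix (Fin 3) (Fin 3) ℝ) (hc : Continuous R) (h0 : R 0 = 1)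
    (hm : ∀ θ, R θ ∈ SO3) (θ : ℝ) (A : Matrix (Fin 3) (Fin 3) ℝ) (hA : A ∈ SO3) :
    JoinedIn SO3 A (R θ * A) := by
  refine ⟨⟨⟨fun t => R (t * θ) * A, ?_⟩, ?_, ?_⟩, ?_⟩
  · exact (hc.comp (by fun_prop)).mul continuous_const
  · simp [h0]
  · simp
  · intro t
    exact Submonoid.mul_mem _ (hm _) hA

lemma exists_angle (x y : ℝ) :
    ∃ θ : ℝ, Real.sin θ * x + Real.cos θ * y = 0 ∧ 0 ≤ Real.cos θ * x - Real.sin θ * y := by
  set z : ℂ := ⟨x, y⟩ with hz
  have hx : ‖z‖ * Real.cos (Complex.arg z) = x := by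
    have := Complex.norm_mul_cos_arg z
    simpa [hz] using this
  have hy : ‖z‖ * Real.sin (Complex.arg z) = y := by
    have := Complex.norm_mul_sin_arg z
    simpa [hz] using this
  refine ⟨-Complex.arg z, ?_, ?_⟩
  · rw [Real.sin_neg, Real.cos_neg, ← hx, ← hy]
    ring
  · rw [Real.sin_neg, Real.cos_neg]
    have h := Real.sin_sq_add_cos_sq (Complex.arg z)
    have hn : 0 ≤ ‖z‖ := norm_nonneg z
    have : Real.cos (Complex.arg z) * x - -Real.sin (Complex.arg z) * y = ‖z‖ := by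
      rw [← hx, ← hy]
      linear_combination ‖z‖ * h
    rw [this]
    exact hn

lemma eq_one_of_triangular (D : Matrix (Fin 3) (Fin 3) ℝ) (hD : D ∈ SO3)
    (h10 : D 1 0 = 0) (h20 : D 2 0 = 0) (h00 : 0 ≤ D 0 0) (h21 : D 2 1 = 0) (h11 : 0 ≤ D 1 1) :
    D = 1 := by
  obtain ⟨hO, hdet⟩ := (Matrix.mem_specialOrthogonalGroup_iff).1 hD
  rw [Matrix.mem_orthogonalGroup_iff'] at hO
  have e00 := congrFun (congrFun hO 0) 0
  have e01 := congrFun (congrFun hO 0) 1
  have e02 := congrFun (congrFun hO 0) 2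
  have e11 := congrFun (congrFun hO 1) 1
  have e12 := congrFun (congrFun hO 1) 2
  simp [Matrix.mul_apply, Fin.sum_univ_three, h10, h20, h21] at e00 e01 e02 e11 e12
  have d00 : D 0 0 = 1 := by nlinarith
  have d01 : D 0 1 = 0 := by
    rcases e01 with h | h
    · rw [d00] at h; exact absurd h one_ne_zero
    · exact h
  have d02 : D 0 2 = 0 := by
    rcases e02 with h | h
    · rw [d00] at h; exact absurd h one_ne_zero
    · exact h
  have d11 : D 1 1 = 1 := by
    rw [d01] at e11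
    nlinarith
  have d12 : D 1 2 = 0 := by
    rw [d01, d11] at e12
    linarith
  have d22 : D 2 2 = 1 := by
    rw [Matrix.det_fin_three, d00, d01, d02, d11, d12, h10, h20, h21] at hdet
    linarith
  ext i j
  fin_cases i <;> fin_cases j <;> simp [*]

lemma rotX_mul (θ : ℝ) (A : Matrix (Fin 3) (Fin 3) ℝ) (j : Fin 3) :
    (rotX θ * A) 0 j = A 0 j ∧
    (rotX θ * A) 1 j = Real.cos θ * A 1 j - Real.sin θ * A 2 j ∧
    (rotX θ * A) 2 j = Real.sin θ * A 1 j + Real.cos θ * A 2 j := by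
  refine ⟨?_, ?_, ?_⟩ <;> rw [Matrix.mul_apply, Fin.sum_univ_three] <;> simp [rotX]
  ring

lemma rotZ_mul (θ : ℝ) (A : Matrix (Fin 3) (Fin 3) ℝ) (j : Fin 3) :
    (rotZ θ * A) 0 j = Real.cos θ * A 0 j - Real.sin θ * A 1 j ∧
    (rotZ θ * A) 1 j = Real.sin θ * A 0 j + Real.cos θ * A 1 j ∧
    (rotZ θ * A) 2 j = A 2 j := by
  refine ⟨?_, ?_, ?_⟩ <;> rw [Matrix.mul_apply, Fin.sum_univ_three] <;> simp [rotZ]
  ring

theorem joined_one (A : Matrix (Fin 3) (Fin 3) ℝ) (hA : A ∈ SO3) : JoinedIn SO3 A 1 := by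
  obtain ⟨θ, h1, -⟩ := exists_angle (A 1 0) (A 2 0)
  have jB := joined_of_family rotX continuous_rotX rotX_zero rotX_mem θ A hA
  have b20 : (rotX θ * A) 2 0 = 0 := by
    rw [(rotX_mul θ A 0).2.2, h1]
  generalize rotX θ * A = B at jB b20
  have hBm : B ∈ SO3 := jB.target_mem
  obtain ⟨φ, h2, h3⟩ := exists_angle (B 0 0) (B 1 0)
  have jC := joined_of_family rotZ continuous_rotZ rotZ_zero rotZ_mem φ B hBm
  have c20 : (rotZ φ * B) 2 0 = 0 := by
    rw [(rotZ_mul φ B 0).2.2, b20]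
  have c10 : (rotZ φ * B) 1 0 = 0 := by
    rw [(rotZ_mul φ B 0).2.1, h2]
  have c00 : 0 ≤ (rotZ φ * B) 0 0 := by
    rw [(rotZ_mul φ B 0).1]; exact h3
  generalize rotZ φ * B = C at jC c20 c10 c00
  have hCm : C ∈ SO3 := jC.target_mem
  obtain ⟨ψ, h4, h5⟩ := exists_angle (C 1 1) (C 2 1)
  have jD := joined_of_family rotX continuous_rotX rotX_zero rotX_mem ψ C hCm
  have hD1 : rotX ψ * C = 1 := by
    apply eq_one_of_triangular _ jD.target_mem
    · rw [(rotX_mul ψ C 0).2.1, c10, c20]; ring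
    · rw [(rotX_mul ψ C 0).2.2, c10, c20]; ring
    · rw [(rotX_mul ψ C 0).1]; exact c00
    · rw [(rotX_mul ψ C 1).2.2, h4]
    · rw [(rotX_mul ψ C 1).2.1]; exact h5
  rw [← hD1]
  exact (jB.trans jC).trans jD

theorem joined_SO3 (A B : Matrix (Fin 3) (Fin 3) ℝ) (hA : A ∈ SO3) (hB : B ∈ SO3) :
    JoinedIn SO3 A B :=
  (joined_one A hA).trans (joined_one B hB).symm

end Pool.Agent.P.MP_8dda54_gt
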