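import Mathlib
import Pool.Agent.P.MP_8dda54_gt.SO3

/-!
The unit ball of three-space with a small cap cut off: every convex body containing a translate
of each of its rotated copies contains a unit ball (by the theorem of Helly).
-/

set_option autoImplicit false

namespace Pool.Agent.P.MP_8dda54_gt

open Matrix

/-- Euclidean three-space. -/
abbrev E3 : Type := EuclideanSpace ℝ (Fin 3)

/-- The unit ball with the cap of height one quarter around the first axis cut off. -/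
def capBall : Set E3 := Metric.closedBall 0 1 ∩ {v | v 0 ≤ 3 / 4}

lemma normsq (v : E3) : ‖v‖ ^ 2 = v 0 ^ 2 + v 1 ^ 2 + v 2 ^ 2 := by
  rw [EuclideanSpace.norm_sq_eq, Fin.sum_univ_three]
  simp

lemma norm_le_one_iff (v : E3) : ‖v‖ ≤ 1 ↔ v 0 ^ 2 + v 1 ^ 2 + v 2 ^ 2 ≤ 1 := by
  rw [← normsq]
  constructor
  · intro h
    have := norm_nonneg v
    nlinarith
  · intro h
    have := norm_nonneg v
    nlinarith

lemma mem_capBall (v : E3) :
    v ∈ capBall ↔ v 0 ^ 2 + v 1 ^ 2 + v 2 ^ 2 ≤ 1 ∧ v 0 ≤ 3 / 4 := by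
  simp only [capBall, Set.mem_inter_iff, mem_closedBall_zero_iff, norm_le_one_iff,
    Set.mem_ofPred_eq]

lemma convex_capBall : Convex ℝ capBall := by
  refine (convex_closedBall 0 1).inter ?_
  intro x hx y hy a b ha hb hab
  simp only [Set.mem_ofPred_eq, PiLp.add_apply, PiLp.smul_apply, smul_eq_mul] at hx hy ⊢
  nlinarith

lemma isCompact_capBall : IsCompact capBall := by
  refine (isCompact_closedBall 0 1).inter_right ?_
  exact isClosed_le (by fun_prop) continuous_const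

lemma rot_apply (ρ : Matrix (Fin 3) (Fin 3) ℝ) (v : E3) (i : Fin 3) :
    (Matrix.toEuclideanLin ρ v) i = ρ i 0 * v 0 + ρ i 1 * v 1 + ρ i 2 * v 2 := by
  have : (Matrix.toEuclideanLin ρ v) i = (ρ *ᵥ (WithLp.ofLp v)) i := rfl
  rw [this]
  simp [Matrix.mulVec, dotProduct, Fin.sum_univ_three]

lemma rot_norm_le (ρ : Matrix (Fin 3) (Fin 3) ℝ) (hρ : ρ ∈ SO3) (v : E3) (hv : ‖v‖ ≤ 1) :
    ‖Matrix.toEuclideanLin ρ v‖ ≤ 1 := by
  obtain ⟨hO, -⟩ := (Matrix.mem_specialOrthogonalGroup_iff).1 hρ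
  rw [Matrix.mem_orthogonalGroup_iff'] at hO
  have e00 := congrFun (congrFun hO 0) 0
  have e01 := congrFun (congrFun hO 0) 1
  have e02 := congrFun (congrFun hO 0) 2
  have e11 := congrFun (congrFun hO 1) 1
  have e12 := congrFun (congrFun hO 1) 2
  have e22 := congrFun (congrFun hO 2) 2
  simp [Matrix.mul_apply, Fin.sum_univ_three] at e00 e01 e02 e11 e12 e22
  rw [norm_le_one_iff] at hv ⊢
  rw [rot_apply, rot_apply, rot_apply]
  have : (ρ 0 0 * v 0 + ρ 0 1 * v 1 + ρ 0 2 * v 2) ^ 2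
      + (ρ 1 0 * v 0 + ρ 1 1 * v 1 + ρ 1 2 * v 2) ^ 2
      + (ρ 2 0 * v 0 + ρ 2 1 * v 1 + ρ 2 2 * v 2) ^ 2 = v 0 ^ 2 + v 1 ^ 2 + v 2 ^ 2 := by
    linear_combination v 0 ^ 2 * e00 + 2 * v 0 * v 1 * e01 + 2 * v 0 * v 2 * e02
      + v 1 ^ 2 * e11 + 2 * v 1 * v 2 * e12 + v 2 ^ 2 * e22
  rw [this]
  exact hv

/-- Six rotations, taking the first basis vector to plus or minus each basis vector. -/
def six : Fin 6 → Matrix (Fin 3) (Fin 3) ℝ :=
  ![!![1, 0, 0; 0, 1, 0; 0, 0, 1], !![-1, 0, 0; 0, -1, 0; 0, 0, 1],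
    !![0, 0, 1; 1, 0, 0; 0, 1, 0], !![0, 0, 1; -1, 0, 0; 0, -1, 0],
    !![0, 1, 0; 0, 0, 1; 1, 0, 0], !![0, -1, 0; 0, 0, 1; -1, 0, 0]]

/-- The coordinate of a point along the image of the first basis vector. -/
def sixVal (k : Fin 6) (u : E3) : ℝ := ![u 0, -u 0, u 1, -u 1, u 2, -u 2] k

lemma six_mem (k : Fin 6) : six k ∈ SO3 := by
  refine (Matrix.mem_specialOrthogonalGroup_iff).2 ⟨?_, ?_⟩
  · rw [Matrix.mem_orthogonalGroup_iff]
    fin_cases k <;> ext i j <;> fin_cases i <;> fin_cases j <;>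
      simp [six, Matrix.mul_apply, Fin.sum_univ_three]
  · fin_cases k <;> simp [six, Matrix.det_fin_three]

lemma six_cover (k : Fin 6) (u : E3) (hu : ‖u‖ ≤ 1) (hk : sixVal k u ≤ 3 / 4) :
    ∃ v ∈ capBall, Matrix.toEuclideanLin (six k) v = u := by
  rw [norm_le_one_iff] at hu
  fin_cases k
  · refine ⟨!₂[u 0, u 1, u 2], ?_, ?_⟩
    · rw [mem_capBall]; simp [sixVal] at hk ⊢; exact ⟨by nlinarith, by linarith⟩
    · ext i; rw [rot_apply]; fin_cases i <;> simp [six]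
  · refine ⟨!₂[-u 0, -u 1, u 2], ?_, ?_⟩
    · rw [mem_capBall]; simp [sixVal] at hk ⊢; exact ⟨by nlinarith, by linarith⟩
    · ext i; rw [rot_apply]; fin_cases i <;> simp [six]
  · refine ⟨!₂[u 1, u 2, u 0], ?_, ?_⟩
    · rw [mem_capBall]; simp [sixVal] at hk ⊢; exact ⟨by nlinarith, by linarith⟩
    · ext i; rw [rot_apply]; fin_cases i <;> simp [six]
  · refine ⟨!₂[-u 1, -u 2, u 0], ?_, ?_⟩
    · rw [mem_capBall]; simp [sixVal] at hk ⊢; exact ⟨by nlinarith, by linarith⟩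
    · ext i; rw [rot_apply]; fin_cases i <;> simp [six]
  · refine ⟨!₂[u 2, u 0, u 1], ?_, ?_⟩
    · rw [mem_capBall]; simp [sixVal] at hk ⊢; exact ⟨by nlinarith, by linarith⟩
    · ext i; rw [rot_apply]; fin_cases i <;> simp [six]
  · refine ⟨!₂[-u 2, -u 0, u 1], ?_, ?_⟩
    · rw [mem_capBall]; simp [sixVal] at hk ⊢; exact ⟨by nlinarith, by linarith⟩
    · ext i; rw [rot_apply]; fin_cases i <;> simp [six]

lemma six_unique (k l : Fin 6) (u : E3) (hu : ‖u‖ ≤ 1) (hk : 3 / 4 < sixVal k u)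
    (hl : 3 / 4 < sixVal l u) : k = l := by
  rw [norm_le_one_iff] at hu
  have h0 := sq_nonneg (u 0)
  have h1 := sq_nonneg (u 1)
  have h2 := sq_nonneg (u 2)
  fin_cases k <;> fin_cases l <;> simp [sixVal] at hk hl ⊢ <;> nlinarith

lemma exists_rot (I : Finset (Metric.closedBall (0 : E3) 1)) (hI : I.card ≤ 4) :
    ∃ ρ ∈ SO3, ∀ u ∈ I, ∃ v ∈ capBall, Matrix.toEuclideanLin ρ v = (u : E3) := by
  have key : ∃ k : Fin 6, ∀ u ∈ I, sixVal k (u : E3) ≤ 3 / 4 := by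
    by_contra hcon
    push Not at hcon
    choose f hf hf' using hcon
    have hinj : Function.Injective (fun k => (⟨f k, hf k⟩ : I)) := by
      intro k l hkl
      have h : f k = f l := congrArg Subtype.val hkl
      have hn : ‖(f k : E3)‖ ≤ 1 := mem_closedBall_zero_iff.1 (f k).2
      exact six_unique k l (f k) hn (hf' k) (h ▸ hf' l)
    have := Fintype.card_le_of_injective _ hinj
    simp at this
    omega
  obtain ⟨k, hk⟩ := key
  exact ⟨six k, six_mem k, fun u hu =>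
    six_cover k u (mem_closedBall_zero_iff.1 u.2) (hk u hu)⟩

/-- A convex body that holds a translate of every rotated copy holds a unit ball. -/
theorem exists_ball (K : Set E3) (hK : Convex ℝ K) (hKc : IsCompact K)
    (h : ∀ ρ ∈ SO3, ∃ x : E3, (fun v => Matrix.toEuclideanLin ρ v + x) '' capBall ⊆ K) :
    ∃ c : E3, ∀ u : E3, ‖u‖ ≤ 1 → u + c ∈ K := by
  have hH := Convex.helly_theorem_compact' (𝕜 := ℝ)
    (F := fun u : Metric.closedBall (0 : E3) 1 => (fun c : E3 => (u : E3) + c) ⁻¹' K)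
    (fun u => hK.translate_preimage_right (u : E3))
    (fun u => (Homeomorph.addLeft (u : E3)).isCompact_preimage.2 hKc) ?_
  · obtain ⟨c, hc⟩ := hH
    refine ⟨c, fun u hu => ?_⟩
    have := Set.mem_iInter.1 hc ⟨u, mem_closedBall_zero_iff.2 hu⟩
    exact this
  · intro I hI
    have hI' : I.card ≤ 4 := by simpa using hI
    obtain ⟨ρ, hρ, hcov⟩ := exists_rot I hI'
    obtain ⟨x, hx⟩ := h ρ hρ
    refine ⟨x, ?_⟩
    simp only [Set.mem_iInter]
    intro u hu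
    obtain ⟨v, hv, hvu⟩ := hcov u hu
    apply hx
    exact ⟨v, hv, by simp [hvu]⟩

/-- The space of copies of the truncated ball inside a set. -/
def copies (K : Set E3) : Set (Matrix (Fin 3) (Fin 3) ℝ × E3) :=
  {p | p.1 ∈ SO3 ∧ (fun v => Matrix.toEuclideanLin p.1 v + p.2) '' capBall ⊆ K}

lemma joined_translate (K : Set E3) (hK : Convex ℝ K) (ρ : Matrix (Fin 3) (Fin 3) ℝ) (x y : E3)
    (hx : (ρ, x) ∈ copies K) (hy : (ρ, y) ∈ copies K) : JoinedIn (copies K) (ρ, x) (ρ, y) := by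
  refine ⟨⟨⟨fun t => (ρ, (1 - (t : ℝ)) • x + (t : ℝ) • y), by fun_prop⟩, by simp, by simp⟩, ?_⟩
  intro t
  refine ⟨hx.1, ?_⟩
  rintro _ ⟨v, hv, rfl⟩
  have h1 : Matrix.toEuclideanLin ρ v + x ∈ K := hx.2 ⟨v, hv, rfl⟩
  have h2 : Matrix.toEuclideanLin ρ v + y ∈ K := hy.2 ⟨v, hv, rfl⟩
  have h3 := hK h1 h2 (a := 1 - (t : ℝ)) (b := (t : ℝ)) (by linarith [t.2.2]) t.2.1 (by ring)
  convert h3 using 1
  change Matrix.toEuclideanLin ρ v + ((1 - (t : ℝ)) • x + (t : ℝ) • y) = _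
  module

lemma mem_copies_center (K : Set E3) (c : E3) (hc : ∀ u : E3, ‖u‖ ≤ 1 → u + c ∈ K)
    (ρ : Matrix (Fin 3) (Fin 3) ℝ) (hρ : ρ ∈ SO3) : (ρ, c) ∈ copies K := by
  refine ⟨hρ, ?_⟩
  rintro _ ⟨v, hv, rfl⟩
  exact hc _ (rot_norm_le ρ hρ v (mem_closedBall_zero_iff.1 hv.1))

theorem joined_copies (K : Set E3) (hK : Convex ℝ K) (hKc : IsCompact K)
    (h : ∀ ρ ∈ SO3, ∃ x : E3, (fun v => Matrix.toEuclideanLin ρ v + x) '' capBall ⊆ K)
    (p q : Matrix (Fin 3) (Fin 3) ℝ × E3) (hp : p ∈ copies K) (hq : q ∈ copies K) :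
    JoinedIn (copies K) p q := by
  obtain ⟨c, hc⟩ := exists_ball K hK hKc h
  obtain ⟨ρ₀, x₀⟩ := p
  obtain ⟨ρ₁, x₁⟩ := q
  have j1 := joined_translate K hK ρ₀ x₀ c hp (mem_copies_center K c hc ρ₀ hp.1)
  have j3 := joined_translate K hK ρ₁ c x₁ (mem_copies_center K c hc ρ₁ hq.1) hq
  have j2 : JoinedIn (copies K) (ρ₀, c) (ρ₁, c) := by
    obtain ⟨γ, hγ⟩ := joined_SO3 ρ₀ ρ₁ hp.1 hq.1
    refine ⟨⟨⟨fun t => (γ t, c), by fun_prop⟩, by simp, by simp⟩, fun t => ?_⟩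
    exact mem_copies_center K c hc _ (hγ t)
  exact (j1.trans j2).trans j3

lemma not_point : ¬ ∃ a : E3, capBall = {a} := by
  rintro ⟨a, ha⟩
  have h1 : (!₂[0, 1, 0] : E3) ∈ capBall := by rw [mem_capBall]; simp; norm_num
  have h2 : (!₂[0, 0, 0] : E3) ∈ capBall := by rw [mem_capBall]; simp; norm_num
  rw [ha, Set.mem_singleton_iff] at h1 h2
  have h3 : (!₂[0, 1, 0] : E3) 1 = (!₂[0, 0, 0] : E3) 1 := by rw [h1, h2]
  simp at h3

lemma not_segment : ¬ ∃ a b : E3, a ≠ b ∧ capBall = segment ℝ a b := by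
  rintro ⟨a, b, -, hab⟩
  have h1 : (!₂[0, 1, 0] : E3) ∈ capBall := by rw [mem_capBall]; simp; norm_num
  have h2 : (!₂[0, 0, 0] : E3) ∈ capBall := by rw [mem_capBall]; simp; norm_num
  have h3 : (!₂[0, 0, 1] : E3) ∈ capBall := by rw [mem_capBall]; simp; norm_num
  rw [hab, segment_eq_image'] at h1 h2 h3
  obtain ⟨r, -, hr⟩ := h1
  obtain ⟨s, -, hs⟩ := h2
  obtain ⟨t, -, ht⟩ := h3
  have r1 := congrArg (fun v : E3 => v 1) hr
  have r2 := congrArg (fun v : E3 => v 2) hr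
  have s1 := congrArg (fun v : E3 => v 1) hs
  have s2 := congrArg (fun v : E3 => v 2) hs
  have t1 := congrArg (fun v : E3 => v 1) ht
  have t2 := congrArg (fun v : E3 => v 2) ht
  simp only [PiLp.add_apply, PiLp.smul_apply, PiLp.sub_apply, smul_eq_mul] at r1 r2 s1 s2 t1 t2
  simp at r1 r2 s1 s2 t1 t2
  have e1 : (r - s) * (b 1 - a 1) = 1 := by linarith
  have e2 : (r - s) * (b 2 - a 2) = 0 := by linarith
  have e3 : (t - s) * (b 2 - a 2) = 1 := by linarith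
  have : ((r - s) * (b 1 - a 1)) * ((t - s) * (b 2 - a 2)) = 0 := by
    linear_combination ((b 1 - a 1) * (t - s)) * e2
  rw [e1, e3] at this
  norm_num at this

lemma not_ball : ¬ ∃ (c : E3) (r : ℝ), 0 < r ∧ capBall = Metric.closedBall c r := by
  rintro ⟨c, r, hr, hc⟩
  have h1 : (!₂[0, 1, 0] : E3) ∈ capBall := by rw [mem_capBall]; simp; norm_num
  have h2 : (!₂[0, -1, 0] : E3) ∈ capBall := by rw [mem_capBall]; simp; norm_num
  have hn : ‖(!₂[r, 0, 0] : E3)‖ = r := by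
    have := normsq (!₂[r, 0, 0] : E3)
    simp at this
    have h0 := norm_nonneg (!₂[r, 0, 0] : E3)
    nlinarith
  have h3 : c + (!₂[r, 0, 0] : E3) ∈ capBall := by
    rw [hc, Metric.mem_closedBall, dist_eq_norm]; simp [hn]
  have h4 : c - (!₂[r, 0, 0] : E3) ∈ capBall := by
    rw [hc, Metric.mem_closedBall, dist_eq_norm]; simp [hn]
  rw [mem_capBall] at h3 h4
  simp at h3 h4
  rw [hc, Metric.mem_closedBall] at h1 h2
  have h5 : dist (!₂[0, 1, 0] : E3) (!₂[0, -1, 0] : E3) ≤ r + r :=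
    (dist_triangle_right _ _ c).trans (add_le_add h1 h2)
  have h6 : dist (!₂[0, 1, 0] : E3) (!₂[0, -1, 0] : E3) ^ 2 = 4 := by
    rw [dist_eq_norm, normsq]
    simp
    norm_num
  have h7 : 0 ≤ dist (!₂[0, 1, 0] : E3) (!₂[0, -1, 0] : E3) := dist_nonneg
  have h8 : 1 ≤ r := by nlinarith
  nlinarith [h3.2, h4.1, sq_nonneg (c 1), sq_nonneg (c 2)]

end Pool.Agent.P.MP_8dda54_gt
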