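import Pool.Agent.P.MP_8dda54_gt.GenSO

/-!
Bodies between the unit ball and the ball with a cap removed: either a fattened copy fits, or the
set of admissible translations is small.
-/

set_option autoImplicit false

namespace Pool.Agent.P.MP_8dda54_gt.Gen

open Matrix Filter Topology

variable {d : ℕ}

/-- the translations that put the rotated set inside `K` -/
def Fib (S K : Set (E d)) (A : M d) : Set (E d) := {x | ∀ v ∈ S, act A v + x ∈ K}

lemma convex_Fib {S K : Set (E d)} (hK : Convex ℝ K) (A : M d) : Convex ℝ (Fib S K A) := by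
  intro x hx y hy a b ha hb hab v hv
  have h := hK (hx v hv) (hy v hv) ha hb hab
  have e : a • (act A v + x) + b • (act A v + y) = act A v + (a • x + b • y) := by
    have : act A v = (a + b) • act A v := by rw [hab, one_smul]
    conv_rhs => rw [this]
    module
  rwa [e] at h

/-- finitely many points with no common translation into `K` give a balanced family -/
lemma balanced {K : Set (E d)} (hK : Convex ℝ K) (hKc : IsCompact K) {J : Type} [Fintype J]
    (p : J → E d) (h : ¬ ∃ c : E d, ∀ i, p i + c ∈ K) :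
    ∃ u : J → E d, ∑ i, u i = 0 ∧
      ∀ k : J → E d, (∀ i, k i ∈ K) → ∑ i, inner ℝ (u i) (k i - p i) < 0 := by
  classical
  have hne : Nonempty J := by
    by_contra hc
    exact h ⟨0, fun i => (hc ⟨i⟩).elim⟩
  obtain ⟨i0⟩ := hne
  have c1 : Convex ℝ (Set.univ.pi fun i => (fun c : E d => p i + c) ⁻¹' K) :=
    convex_pi fun i _ => hK.translate_preimage_right (p i)
  have c2 : IsCompact (Set.univ.pi fun i => (fun c : E d => p i + c) ⁻¹' K) :=
    isCompact_univ_pi fun i => (Homeomorph.addLeft (p i)).isCompact_preimage.2 hKc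
  have c3 : Convex ℝ {z : J → E d | ∀ i, z i = z i0} := by
    intro x hx y hy a b _ _ _ i
    simp [hx i, hy i]
  have c4 : IsClosed {z : J → E d | ∀ i, z i = z i0} := by
    simp only [Set.ofPred_forall]
    exact isClosed_iInter fun i => isClosed_eq (continuous_apply i) (continuous_apply i0)
  obtain ⟨f, a, b, h1, hab, h2⟩ := geometric_hahn_banach_compact_closed c1 c2 c3 c4 (by
    rw [Set.disjoint_left]
    intro z hz hz'
    exact h ⟨z i0, fun i => by rw [← hz' i]; exact hz i (Set.mem_univ i)⟩)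
  let u : J → E d := fun i => (InnerProductSpace.toDual ℝ (E d)).symm
    (f.comp (ContinuousLinearMap.single ℝ (fun _ : J => E d) i))
  have hf : ∀ z : J → E d, f z = ∑ i, inner ℝ (u i) (z i) := by
    intro z
    conv_lhs => rw [← Finset.univ_sum_single z, map_sum]
    refine Finset.sum_congr rfl fun i _ => ?_
    simp [u, InnerProductSpace.toDual_symm_apply]
  have hc : ∀ c : E d, b < inner ℝ (∑ i, u i) c := by
    intro c
    have := h2 (fun _ => c) (fun _ => rfl)
    rwa [hf, ← sum_inner] at this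
  have hb : b < 0 := by simpa using hc 0
  have hs : ∑ i, u i = 0 := by
    by_contra hs
    have hp : 0 < ‖∑ i, u i‖ ^ 2 := pow_pos (norm_pos_iff.mpr hs) 2
    have := hc ((b / ‖∑ i, u i‖ ^ 2) • ∑ i, u i)
    rw [inner_smul_right, real_inner_self_eq_norm_sq, div_mul_cancel₀ _ hp.ne'] at this
    exact lt_irrefl _ this
  refine ⟨u, hs, fun k hk => ?_⟩
  have := h1 (fun i => k i - p i) (fun i _ => by simpa using hk i)
  rw [hf] at this
  linarith

section
variable (hd : 2 ≤ d) {e : E d} (he : ‖e‖ = 1) {h : ℝ} (hh : 0 < h) {S K : Set (E d)}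
  (hcap : ∀ v : E d, ‖v‖ ≤ 1 → inner ℝ e v ≤ h → v ∈ S)
  (hK : Convex ℝ K) (hKc : IsCompact K) (hall : ∀ A ∈ SO d, (Fib S K A).Nonempty)
include hd he hh hcap hK hKc hall

lemma key {A : M d} {x y : E d} (hx : x ∈ Fib S K A) (hy : y ∈ Fib S K A) (hxy : x ≠ y) :
    ∃ ε > 0, ∃ c : E d, ∀ p : E d, ‖p‖ ≤ 1 → (∃ q ∈ S, ‖p - act A q‖ ≤ ε) → p + c ∈ K := by
  classical
  have hv : 0 < ‖y - x‖ := norm_pos_iff.mpr (sub_ne_zero.mpr hxy.symm)
  refine ⟨h ^ 2 * ‖y - x‖ / (d + 1), by positivity, ?_⟩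
  by_contra hcon
  set T : Set (E d) := {p | ‖p‖ ≤ 1 ∧ ∃ q ∈ S, ‖p - act A q‖ ≤ h ^ 2 * ‖y - x‖ / (d + 1)} with hT
  have hI : ∃ I : Finset T, I.card ≤ d + 1 ∧ ¬ ∃ c : E d, ∀ i : I, ((i : T) : E d) + c ∈ K := by
    by_contra hI
    push Not at hI
    obtain ⟨c, hc⟩ := Convex.helly_theorem_compact' (𝕜 := ℝ)
      (F := fun u : T => (fun c : E d => (u : E d) + c) ⁻¹' K)
      (fun u => hK.translate_preimage_right (u : E d))
      (fun u => (Homeomorph.addLeft (u : E d)).isCompact_preimage.2 hKc)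
      (fun I hc => by
        obtain ⟨c, hc⟩ := hI I (by simpa using hc)
        refine ⟨c, ?_⟩
        simp only [Set.mem_iInter]
        exact fun i hi => hc ⟨i, hi⟩)
    exact hcon ⟨c, fun p h1 h2 => Set.mem_iInter.1 hc ⟨p, h1, h2⟩⟩
  obtain ⟨I, hcard, hI⟩ := hI
  obtain ⟨u, hs, hu⟩ := balanced hK hKc (fun i : I => ((i : T) : E d)) hI
  have hsum : ∀ z : E d, ∑ i, inner ℝ (u i) z = 0 := by
    intro z; rw [← sum_inner, hs, inner_zero_left]
  have H : ∀ w : E d, ‖w‖ = 1 → ∃ i, h * ‖u i‖ < inner ℝ (u i) w := by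
    intro w hw
    by_contra hc
    push Not at hc
    obtain ⟨B, hB, hBe⟩ := exists_rot hd he hw
    obtain ⟨z, hz⟩ := hall B hB
    have hn : ∀ i, ‖‖u i‖⁻¹ • u i‖ ≤ 1 := by
      intro i
      rw [norm_smul, norm_inv, norm_norm]
      exact inv_mul_le_one_of_le₀ le_rfl (norm_nonneg _)
    have hm : ∀ i, ‖u i‖⁻¹ • u i + z ∈ K := by
      intro i
      have e1 : act B (act Bᵀ (‖u i‖⁻¹ • u i)) = ‖u i‖⁻¹ • u i := by
        rw [← act_mul, SO_mul_tr hB, act_one]
      rw [← e1]
      apply hz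
      apply hcap
      · rw [SO_norm (SO_tr hB)]; exact hn i
      · rw [← SO_inner hB, hBe, e1, inner_smul_right, real_inner_comm]
        rcases (norm_nonneg (u i)).eq_or_lt with h0 | h0
        · rw [← h0]; simpa using hh.le
        · rw [inv_mul_le_iff₀ h0]; linarith [hc i]
    have := hu _ hm
    simp only [add_sub_right_comm, inner_add_right, Finset.sum_add_distrib, hsum, add_zero] at this
    refine absurd this (not_lt.mpr (Finset.sum_nonneg fun i _ => ?_))
    rw [inner_sub_right, inner_smul_right, real_inner_self_eq_norm_sq]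
    have a1 := real_inner_le_norm (u i) ((i : T) : E d)
    have a2 : ‖((i : T) : E d)‖ ≤ 1 := (i : T).2.1
    have a3 : ‖u i‖⁻¹ * ‖u i‖ ^ 2 = ‖u i‖ := by
      rcases (norm_nonneg (u i)).eq_or_lt with h0 | h0
      · rw [← h0]; simp
      · field_simp
    nlinarith [norm_nonneg (u i)]
  have hv1 : ‖‖y - x‖⁻¹ • (y - x)‖ = 1 := norm_smul_inv_norm (sub_ne_zero.mpr hxy.symm)
  obtain ⟨i0, hi0⟩ := H (‖y - x‖⁻¹ • (y - x)) hv1
  obtain ⟨j, -, hj⟩ := Finset.exists_max_image Finset.univ (fun i => ‖u i‖) ⟨i0, Finset.mem_univ _⟩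
  have hij : h * ‖u j‖ ≤ ‖u i0‖ := by
    by_cases hij : i0 = j
    · have a1 := real_inner_le_norm (u i0) (‖y - x‖⁻¹ • (y - x))
      rw [hv1] at a1
      rw [← hij]
      linarith
    · have hc : ((Finset.univ.erase i0).erase j).card < d := by
        rw [Finset.card_erase_of_mem (by simp [Ne.symm hij]),
          Finset.card_erase_of_mem (Finset.mem_univ _), Finset.card_univ, Fintype.card_coe]
        omega
      have main : ∀ w : E d, ‖w‖ = 1 →
          (∀ i ∈ (Finset.univ.erase i0).erase j, inner ℝ (u i) w = 0) →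
          inner ℝ (u i0) w ≤ 0 → h * ‖u j‖ ≤ ‖u i0‖ := by
        intro w hw h0 h1
        have e1 := hsum w
        rw [← Finset.add_sum_erase _ _ (Finset.mem_univ i0),
          ← Finset.add_sum_erase _ _ (show j ∈ Finset.univ.erase i0 by simp [Ne.symm hij]),
          Finset.sum_eq_zero h0] at e1
        obtain ⟨i, hi⟩ := H w hw
        have a0 : 0 ≤ h * ‖u i‖ := by positivity
        by_cases b1 : i = i0
        · subst b1; linarith
        by_cases b2 : i = j
        · subst b2
          have a1 := abs_real_inner_le_norm (u i0) w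
          rw [hw, mul_one, abs_le] at a1
          linarith [a1.1]
        · rw [h0 i (by simp [b1, b2])] at hi
          linarith
      obtain ⟨w, hw, h0⟩ := exists_unit_orth _ u hc
      rcases le_total (inner ℝ (u i0) w) 0 with h1 | h1
      · exact main w hw h0 h1
      · refine main (-w) (by rwa [norm_neg]) (fun i hi => ?_) ?_
        · rw [inner_neg_right, h0 i hi, neg_zero]
        · rw [inner_neg_right]; linarith
  choose q hq hq' using fun i : I => (i : T).2.2
  have := hu (fun i => act A (q i) + (x + if i = i0 then y - x else 0)) (fun i => by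
    split_ifs
    · simpa using hy _ (hq i)
    · simpa using hx _ (hq i))
  simp only [add_sub_right_comm, inner_add_right, Finset.sum_add_distrib, hsum, zero_add] at this
  have e2 : ∑ i, inner ℝ (u i) (if i = i0 then y - x else 0) = inner ℝ (u i0) (y - x) := by
    rw [Finset.sum_eq_single i0]
    · simp
    · intro i _ hi; simp [hi]
    · simp
  have e3 : - ((d + 1) * (‖u j‖ * (h ^ 2 * ‖y - x‖ / (d + 1)))) ≤
      ∑ i, inner ℝ (u i) (act A (q i) - ((i : T) : E d)) := by
    have b1 : ∀ i ∈ (Finset.univ : Finset I), - (‖u j‖ * (h ^ 2 * ‖y - x‖ / (d + 1))) ≤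
        inner ℝ (u i) (act A (q i) - ((i : T) : E d)) := by
      intro i _
      have a1 := abs_real_inner_le_norm (u i) (act A (q i) - ((i : T) : E d))
      rw [abs_le, norm_sub_rev] at a1
      have a2 := mul_le_mul (hj i (Finset.mem_univ _)) (hq' i) (norm_nonneg _) (norm_nonneg _)
      linarith [a1.1]
    have b2 := Finset.sum_le_sum b1
    rw [Finset.sum_const, Finset.card_univ, Fintype.card_coe, nsmul_eq_mul] at b2
    have b3 : (I.card : ℝ) ≤ d + 1 := by exact_mod_cast hcard
    have b4 : 0 ≤ ‖u j‖ * (h ^ 2 * ‖y - x‖ / (d + 1)) := by positivity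
    nlinarith
  have e4 : ((d : ℝ) + 1) * (‖u j‖ * (h ^ 2 * ‖y - x‖ / (d + 1))) = h * ‖y - x‖ * (h * ‖u j‖) := by
    field_simp
  rw [inner_smul_right, lt_inv_mul_iff₀ hv] at hi0
  have e5 := mul_le_mul_of_nonneg_left hij (mul_pos hh hv).le
  rw [e2] at this
  nlinarith

end

/-- the action as a continuous map to operators -/
noncomputable def actL (A : M d) : E d →L[ℝ] E d :=
  LinearMap.toContinuousLinearMap (Matrix.toEuclideanLin A)

lemma continuous_actL : Continuous (actL : M d → E d →L[ℝ] E d) :=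
  LinearMap.continuous_of_finiteDimensional
    ((Matrix.toEuclideanLin (𝕜 := ℝ) (m := Fin d) (n := Fin d)).trans
      LinearMap.toContinuousLinearMap).toLinearMap

theorem selection (hd : 2 ≤ d) {e : E d} (he : ‖e‖ = 1) {h : ℝ} (hh : 0 < h) {S K : Set (E d)}
    (hcap : ∀ v : E d, ‖v‖ ≤ 1 → inner ℝ e v ≤ h → v ∈ S) (hB : ∀ v ∈ S, ‖v‖ ≤ 1)
    (hK : Convex ℝ K) (hKc : IsCompact K) (hall : ∀ A ∈ SO d, (Fib S K A).Nonempty)
    {X : Type} [TopologicalSpace X] [TopologicalSpace.MetrizableSpace X] {γ : X → M d}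
    (hγ : Continuous γ) (hSO : ∀ t, γ t ∈ SO d) :
    ∃ δ : X → E d, Continuous δ ∧ ∀ t, δ t ∈ Fib S K (γ t) := by
  classical
  let _ := TopologicalSpace.metrizableSpaceMetric X
  set U : Set X := {t | ∃ c : E d, ∀ᶠ s in 𝓝 t, c ∈ Fib S K (γ s)} with hU
  have hUo : IsOpen U := by
    rw [isOpen_iff_mem_nhds]
    rintro t ⟨c, hc⟩
    exact hc.eventually_nhds.mono fun s hs => ⟨c, hs⟩
  obtain ⟨g, hg⟩ := exists_continuous_forall_mem_convex_of_local_const (X := U)
    (t := fun s => Fib S K (γ s)) (fun s => convex_Fib hK _) (by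
      rintro ⟨t, c, hc⟩
      exact ⟨c, (continuous_subtype_val.tendsto (⟨t, c, hc⟩ : U)).eventually hc⟩)
  have uniq : ∀ t ∉ U, ∀ x ∈ Fib S K (γ t), ∀ y ∈ Fib S K (γ t), x = y := by
    intro t ht x hx y hy
    by_contra hxy
    obtain ⟨ε, hε, c, hc⟩ := key hd he hh hcap hK hKc hall hx hy hxy
    refine ht ⟨c, ?_⟩
    have h1 : ∀ᶠ s in 𝓝 t, dist (actL (γ s)) (actL (γ t)) < ε :=
      Metric.tendsto_nhds.mp (continuous_actL.comp hγ).continuousAt ε hε
    refine h1.mono fun s hs v hv => hc _ ?_ ⟨v, hv, ?_⟩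
    · rw [SO_norm (hSO s)]; exact hB v hv
    · rw [dist_eq_norm] at hs
      have a1 := (actL (γ s) - actL (γ t)).le_opNorm v
      have a2 := mul_le_mul hs.le (hB v hv) (norm_nonneg _) hε.le
      rw [mul_one] at a2
      exact a1.trans a2
  choose x0 hx0 using fun t => hall _ (hSO t)
  have hδ : ∀ t, (if ht : t ∈ U then g ⟨t, ht⟩ else x0 t) ∈ Fib S K (γ t) := by
    intro t
    split_ifs with ht
    · exact hg ⟨t, ht⟩
    · exact hx0 t
  refine ⟨fun t => if ht : t ∈ U then g ⟨t, ht⟩ else x0 t, ?_, hδ⟩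
  rw [continuous_iff_continuousAt]
  intro t
  by_cases ht : t ∈ U
  · refine ContinuousOn.continuousAt ?_ (hUo.mem_nhds ht)
    rw [continuousOn_iff_continuous_domRestrict]
    refine g.continuous.congr fun s => ?_
    simp
  · have h0 : (0 : E d) ∈ S := hcap 0 (by simp) (by simpa using hh.le)
    refine hKc.tendsto_nhds_of_unique_mapClusterPt
      (Eventually.of_forall fun s => by simpa using hδ s 0 h0) fun z _ hz => ?_
    refine uniq t ht _ ?_ _ (hδ t)
    intro v hv
    obtain ⟨F, hF, hz'⟩ := mapClusterPt_iff_ultrafilter.mp hz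
    have h1 : Tendsto (fun s => act (γ s) v) F (𝓝 (act (γ t) v)) :=
      (((continuous_actL.comp hγ).clm_apply continuous_const).tendsto t).mono_left hF
    exact hKc.isClosed.mem_of_tendsto (h1.add hz') (Eventually.of_forall fun s => hδ s v hv)

end Pool.Agent.P.MP_8dda54_gt.Gen
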