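import Pool.Agent.P.MP_8dda54_gt.GenKey

set_option autoImplicit false

namespace Pool.Agent.P.MP_8dda54_gt.Gen

open Matrix Filter Topology

variable {d : ℕ}

/-- the space of copies -/
def copies (S K : Set (E d)) : Set (M d × E d) := {p | p.1 ∈ SO d ∧ p.2 ∈ Fib S K p.1}

lemma joined_translate {S K : Set (E d)} (hK : Convex ℝ K) {A : M d} (hA : A ∈ SO d) {x y : E d}
    (hx : x ∈ Fib S K A) (hy : y ∈ Fib S K A) : JoinedIn (copies S K) (A, x) (A, y) := by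
  refine ⟨⟨⟨fun t => (A, (1 - (t : ℝ)) • x + (t : ℝ) • y), by fun_prop⟩, by simp, by simp⟩, ?_⟩
  intro t
  exact ⟨hA, convex_Fib hK A hx hy (by linarith [t.2.2]) t.2.1 (by ring)⟩

theorem joined_copies (hd : 2 ≤ d) {e : E d} (he : ‖e‖ = 1) {h : ℝ} (hh : 0 < h)
    {S K : Set (E d)} (hcap : ∀ v : E d, ‖v‖ ≤ 1 → inner ℝ e v ≤ h → v ∈ S)
    (hB : ∀ v ∈ S, ‖v‖ ≤ 1) (hK : Convex ℝ K) (hKc : IsCompact K)
    (hall : ∀ A ∈ SO d, (Fib S K A).Nonempty) {p q : M d × E d} (hp : p ∈ copies S K)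
    (hq : q ∈ copies S K) : JoinedIn (copies S K) p q := by
  obtain ⟨A, x⟩ := p
  obtain ⟨B, y⟩ := q
  obtain ⟨γ, hγ⟩ := joined_SO hd hp.1 hq.1
  obtain ⟨δ, hδ, hδ'⟩ := selection hd he hh hcap hB hK hKc hall γ.continuous hγ
  have j2 : JoinedIn (copies S K) (A, δ 0) (B, δ 1) :=
    ⟨⟨⟨fun t => (γ t, δ t), γ.continuous.prodMk hδ⟩, by simp, by simp⟩, fun t => ⟨hγ t, hδ' t⟩⟩
  exact ((joined_translate hK hp.1 hp.2 (by simpa using hδ' 0)).trans j2).trans
    (joined_translate hK hq.1 (by simpa using hδ' 1) hq.2)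

theorem selection_SO (hd : 2 ≤ d) {e : E d} (he : ‖e‖ = 1) {h : ℝ} (hh : 0 < h)
    {S K : Set (E d)} (hcap : ∀ v : E d, ‖v‖ ≤ 1 → inner ℝ e v ≤ h → v ∈ S)
    (hB : ∀ v ∈ S, ‖v‖ ≤ 1) (hK : Convex ℝ K) (hKc : IsCompact K)
    (hall : ∀ A ∈ SO d, (Fib S K A).Nonempty) :
    ∃ δ : Matrix.specialOrthogonalGroup (Fin d) ℝ → E d, Continuous δ ∧
      ∀ A : Matrix.specialOrthogonalGroup (Fin d) ℝ, δ A ∈ Fib S K (A : M d) := by
  have : TopologicalSpace.MetrizableSpace (M d) :=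
    inferInstanceAs (TopologicalSpace.MetrizableSpace (Fin d → Fin d → ℝ))
  have : TopologicalSpace.MetrizableSpace (Matrix.specialOrthogonalGroup (Fin d) ℝ) :=
    Topology.IsEmbedding.subtypeVal.metrizableSpace
  exact selection hd he hh hcap hB hK hKc hall continuous_subtype_val fun A => A.2

lemma interior_ne {e : E d} (he : ‖e‖ = 1) {h : ℝ} (hh : 0 < h) {S : Set (E d)}
    (hcap : ∀ v : E d, ‖v‖ ≤ 1 → inner ℝ e v ≤ h → v ∈ S) : (interior S).Nonempty := by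
  refine ⟨0, interior_maximal (t := Metric.ball 0 (min h 1)) ?_ Metric.isOpen_ball
    (Metric.mem_ball_self (lt_min hh one_pos))⟩
  intro v hv
  rw [mem_ball_zero_iff, lt_min_iff] at hv
  refine hcap v hv.2.le ?_
  have := real_inner_le_norm e v
  rw [he, one_mul] at this
  linarith [hv.1]

lemma not_ball (hd : 2 ≤ d) {e : E d} {h : ℝ} (hh : 0 < h) {S : Set (E d)}
    (hcap : ∀ v : E d, ‖v‖ ≤ 1 → inner ℝ e v ≤ h → v ∈ S) (hB : ∀ v ∈ S, ‖v‖ ≤ 1)
    (hne : S ≠ Metric.closedBall 0 1) (c : E d) (r : ℝ) : S ≠ Metric.closedBall c r := by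
  intro hS
  obtain ⟨f, hf, hfe⟩ := exists_unit_orth (d := d) ({()} : Finset Unit) (fun _ => e)
    (by simp; omega)
  have h0 : inner ℝ e f = 0 := hfe () (by simp)
  have h1 : f ∈ S := hcap f hf.le (by linarith)
  have h2 : -f ∈ S := hcap (-f) (by rw [norm_neg]; exact hf.le) (by rw [inner_neg_right]; linarith)
  rw [hS, Metric.mem_closedBall] at h1 h2
  have h3 : dist f (-f) ≤ r + r := (dist_triangle_right _ _ c).trans (add_le_add h1 h2)
  rw [dist_eq_norm, sub_neg_eq_add, ← two_smul ℝ f, norm_smul, hf] at h3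
  have hr : 1 ≤ r := by
    simp at h3
    linarith
  have h4 : ∀ w : E d, ‖w‖ = 1 → ‖c + r • w‖ ≤ 1 := by
    intro w hw
    apply hB
    rw [hS, Metric.mem_closedBall, dist_eq_norm, add_sub_cancel_left, norm_smul, hw,
      Real.norm_eq_abs, abs_of_pos (by linarith), mul_one]
  have h5 := parallelogram_law_with_norm ℝ c (r • f)
  have h6 := h4 f hf
  have h7 := h4 (-f) (by rwa [norm_neg])
  rw [smul_neg, ← sub_eq_add_neg] at h7
  rw [norm_smul, hf, Real.norm_eq_abs, abs_of_pos (by linarith), mul_one] at h5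
  have a1 := norm_nonneg (c + r • f)
  have a2 := norm_nonneg (c - r • f)
  have a3 := norm_nonneg c
  have b1 : ‖c‖ = 0 := by nlinarith
  have b2 : r = 1 := by nlinarith
  exact hne (by rw [hS, norm_eq_zero.mp b1, b2])

lemma cap_facts {e : E d} (he : ‖e‖ = 1) {h : ℝ} (hh : h < 1) :
    Convex ℝ {v : E d | ‖v‖ ≤ 1 ∧ inner ℝ e v ≤ h} ∧ IsCompact {v : E d | ‖v‖ ≤ 1 ∧ inner ℝ e v ≤ h} ∧
      {v : E d | ‖v‖ ≤ 1 ∧ inner ℝ e v ≤ h} ⊂ Metric.closedBall 0 1 := by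
  have e1 : {v : E d | ‖v‖ ≤ 1 ∧ inner ℝ e v ≤ h}
      = Metric.closedBall 0 1 ∩ {v : E d | inner ℝ e v ≤ h} := by
    ext v; simp
  refine ⟨?_, ?_, ?_, ?_⟩
  · rw [e1]
    refine (convex_closedBall 0 1).inter ?_
    intro x hx y hy a b ha hb hab
    simp only [Set.mem_ofPred_eq, inner_add_right, inner_smul_right] at hx hy ⊢
    have : a * h + b * h = h := by rw [← add_mul, hab, one_mul]
    nlinarith [mul_le_mul_of_nonneg_left hx ha, mul_le_mul_of_nonneg_left hy hb]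
  · rw [e1]
    exact (isCompact_closedBall 0 1).inter_right (isClosed_le (by fun_prop) continuous_const)
  · exact fun v hv => mem_closedBall_zero_iff.mpr hv.1
  · intro hs
    have := (hs (mem_closedBall_zero_iff.mpr he.le)).2
    rw [real_inner_self_eq_norm_sq, he] at this
    linarith

end Pool.Agent.P.MP_8dda54_gt.Gen
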