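import Mathlib

/-!
Rotations of Euclidean space of any dimension: action, reflections, path connectedness.
-/

set_option autoImplicit false

namespace Pool.Agent.P.MP_8dda54_gt.Gen

open Matrix

/-- Euclidean space -/
abbrev E (d : ℕ) : Type := EuclideanSpace ℝ (Fin d)

/-- square matrices -/
abbrev M (d : ℕ) : Type := Matrix (Fin d) (Fin d) ℝ

/-- rotation matrices -/
abbrev SO (d : ℕ) : Set (M d) := (Matrix.specialOrthogonalGroup (Fin d) ℝ : Set (M d))

variable {d : ℕ}

/-- the action of a matrix -/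
noncomputable abbrev act (A : M d) (v : E d) : E d := Matrix.toEuclideanLin A v

lemma act_mul (A B : M d) (v : E d) : act (A * B) v = act A (act B v) := by
  ext i
  change ((A * B) *ᵥ v.ofLp) i = (A *ᵥ (B *ᵥ v.ofLp)) i
  rw [Matrix.mulVec_mulVec]

lemma act_one (v : E d) : act (1 : M d) v = v := by
  ext i
  change ((1 : M d) *ᵥ v.ofLp) i = _
  rw [Matrix.one_mulVec]

lemma inner_act (A : M d) (a b : E d) : inner ℝ (act A a) b = inner ℝ a (act Aᵀ b) := by
  have h := Matrix.toEuclideanLin_conjTranspose_eq_adjoint (𝕜 := ℝ) A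
  rw [Matrix.conjTranspose_eq_transpose_of_trivial] at h
  unfold act
  rw [h, LinearMap.adjoint_inner_right]

lemma act_ext {A B : M d} (h : ∀ v, act A v = act B v) : A = B :=
  (Matrix.toEuclideanLin (𝕜 := ℝ)).injective (LinearMap.ext h)

lemma SO_iff {A : M d} : A ∈ SO d ↔ Aᵀ * A = 1 ∧ A.det = 1 := by
  change A ∈ Matrix.specialOrthogonalGroup (Fin d) ℝ ↔ _
  rw [Matrix.mem_specialOrthogonalGroup_iff, Matrix.mem_orthogonalGroup_iff']

lemma SO_inner {A : M d} (h : A ∈ SO d) (a b : E d) :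
    inner ℝ (act A a) (act A b) = inner ℝ a b := by
  rw [inner_act, ← act_mul, (SO_iff.mp h).1, act_one]

lemma SO_norm {A : M d} (h : A ∈ SO d) (a : E d) : ‖act A a‖ = ‖a‖ := by
  rw [norm_eq_sqrt_real_inner, SO_inner h, ← norm_eq_sqrt_real_inner]

lemma SO_mul_tr {A : M d} (h : A ∈ SO d) : A * Aᵀ = 1 := mul_eq_one_comm.mp (SO_iff.mp h).1

lemma SO_tr {A : M d} (h : A ∈ SO d) : Aᵀ ∈ SO d := by
  rw [SO_iff, Matrix.transpose_transpose, Matrix.det_transpose]
  exact ⟨SO_mul_tr h, (SO_iff.mp h).2⟩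

lemma SO_mul {A B : M d} (hA : A ∈ SO d) (hB : B ∈ SO d) : A * B ∈ SO d :=
  (Matrix.specialOrthogonalGroup (Fin d) ℝ).mul_mem hA hB

lemma SO_one : (1 : M d) ∈ SO d := (Matrix.specialOrthogonalGroup (Fin d) ℝ).one_mem

/-- the reflection in the hyperplane orthogonal to `v` -/
noncomputable def rf (v : E d) : M d := 1 - (2 / ‖v‖ ^ 2) • Matrix.vecMulVec v.ofLp v.ofLp

lemma act_rf (v x : E d) : act (rf v) x = x - (2 * (inner ℝ v x / ‖v‖ ^ 2)) • v := by
  ext i
  change (rf v *ᵥ x.ofLp) i = _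
  have : inner ℝ v x = v.ofLp ⬝ᵥ x.ofLp := by
    simp [PiLp.inner_apply, dotProduct, mul_comm]
  rw [rf, Matrix.sub_mulVec, Matrix.one_mulVec, Matrix.smul_mulVec, Matrix.vecMulVec_mulVec, this]
  simp
  ring

lemma act_rf' (v x : E d) : act (rf v) x = (ℝ ∙ v)ᗮ.reflection x := by
  rw [act_rf, Submodule.reflection_orthogonal_apply, Submodule.reflection_singleton_apply]
  simp only [RCLike.ofReal_real_eq_id, id_eq, neg_sub]
  congr 1
  rw [two_smul, two_mul, add_smul]

lemma rf_zero : rf (0 : E d) = 1 := by simp [rf]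

lemma rf_tr (v : E d) : (rf v)ᵀ = rf v := by
  simp [rf, Matrix.transpose_sub, Matrix.transpose_smul, Matrix.transpose_vecMulVec]

lemma rf_mul_self (v : E d) : rf v * rf v = 1 := by
  apply act_ext
  intro x
  rw [act_mul, act_rf', act_rf', act_one, Submodule.reflection_reflection]

lemma det_rf {v : E d} (hv : v ≠ 0) : (rf v).det = -1 := by
  have h1 : Matrix.toEuclideanLin (rf v) = (ℝ ∙ v)ᗮ.reflection.toLinearMap :=
    LinearMap.ext fun x => act_rf' v x
  have h2 := Submodule.det_reflection (ℝ ∙ v)ᗮ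
  rw [← h1, Matrix.toEuclideanLin_eq_toLin_orthonormal, LinearMap.det_toLin,
    Submodule.orthogonal_orthogonal, finrank_span_singleton hv] at h2
  simpa using h2

lemma rf_pair_mem {v w : E d} (hv : v ≠ 0) (hw : w ≠ 0) : rf v * rf w ∈ SO d := by
  rw [SO_iff, Matrix.transpose_mul, rf_tr, rf_tr, Matrix.det_mul, det_rf hv, det_rf hw]
  refine ⟨?_, by norm_num⟩
  rw [Matrix.mul_assoc, ← Matrix.mul_assoc (rf v), rf_mul_self, Matrix.one_mul, rf_mul_self]

lemma continuousOn_rf : ContinuousOn (rf : E d → M d) {0}ᶜ := by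
  have h1 : ContinuousOn (fun v : E d => 2 / ‖v‖ ^ 2) {0}ᶜ :=
    continuousOn_const.div (by fun_prop) fun v hv => pow_ne_zero 2 (norm_ne_zero_iff.mpr hv)
  have h2 : Continuous (fun v : E d => (Matrix.vecMulVec v.ofLp v.ofLp : M d)) := by
    refine continuous_matrix fun i j => ?_
    simp only [Matrix.vecMulVec_apply]
    fun_prop
  exact continuousOn_const.sub (h1.fun_smul h2.continuousOn)

lemma joined_mul {A B : M d} (hA : JoinedIn (SO d) 1 A) (hB : JoinedIn (SO d) 1 B) :
    JoinedIn (SO d) 1 (A * B) := by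
  obtain ⟨p, hp⟩ := hA
  obtain ⟨q, hq⟩ := hB
  exact ⟨⟨⟨fun t => p t * q t, p.continuous.mul q.continuous⟩, by simp, by simp⟩,
    fun t => SO_mul (hp t) (hq t)⟩

lemma joined_pair (hd : 2 ≤ d) {v w : E d} (hv : v ≠ 0) (hw : w ≠ 0) :
    JoinedIn (SO d) 1 (rf v * rf w) := by
  have hr : 1 < Module.rank ℝ (E d) := by
    rw [← Module.finrank_eq_rank, finrank_euclideanSpace_fin]
    exact_mod_cast hd
  obtain ⟨p, hp⟩ := (isPathConnected_compl_singleton_of_one_lt_rank hr (0 : E d)).joinedIn v hv w hw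
  refine ⟨⟨⟨fun t => rf v * rf (p t), continuous_const.mul
    (continuousOn_rf.comp_continuous p.continuous hp)⟩, ?_, ?_⟩, fun t => rf_pair_mem hv (hp t)⟩
  · simp [rf_mul_self]
  · simp

lemma joined_list (hd : 2 ≤ d) {f : E d} (hf : f ≠ 0) (l : List (E d)) :
    JoinedIn (SO d) 1 (l.map rf).prod ∨ JoinedIn (SO d) 1 (rf f * (l.map rf).prod) := by
  induction l with
  | nil => exact Or.inl (JoinedIn.refl SO_one)
  | cons v l ih =>
    rw [List.map_cons, List.prod_cons]
    by_cases hv : v = 0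
    · rw [hv, rf_zero, Matrix.one_mul]; exact ih
    rcases ih with h | h
    · right
      rw [← Matrix.mul_assoc]
      exact joined_mul (joined_pair hd hf hv) h
    · left
      have := joined_mul (joined_pair hd hv hf) h
      rwa [Matrix.mul_assoc, ← Matrix.mul_assoc (rf f), rf_mul_self, Matrix.one_mul] at this

lemma act_list (l : List (E d)) (x : E d) :
    act (l.map rf).prod x = (l.map fun v => (ℝ ∙ v)ᗮ.reflection).prod x := by
  induction l with
  | nil => simp [act_one]
  | cons v l ih =>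
    rw [List.map_cons, List.prod_cons, act_mul, ih, act_rf', List.map_cons, List.prod_cons]
    rfl

lemma joined_one (hd : 2 ≤ d) {A : M d} (hA : A ∈ SO d) : JoinedIn (SO d) 1 A := by
  let φ : E d ≃ₗᵢ[ℝ] E d :=
    ((Matrix.toEuclideanLin A).isometryOfInner (SO_inner hA)).toLinearIsometryEquiv rfl
  obtain ⟨l, -, hl⟩ := φ.reflections_generate_dim
  have e : A = (l.map rf).prod := by
    apply act_ext
    intro x
    rw [act_list, ← hl]
    rfl
  obtain ⟨f, hf⟩ : ∃ f : E d, f ≠ 0 := by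
    have : Nontrivial (E d) := Module.nontrivial_of_finrank_pos (R := ℝ)
      (by rw [finrank_euclideanSpace_fin]; omega)
    exact exists_ne 0
  rcases joined_list hd hf l with h | h
  · rwa [e]
  · exfalso
    have := (SO_iff.mp h.target_mem).2
    rw [← e, Matrix.det_mul, det_rf hf, (SO_iff.mp hA).2] at this
    norm_num at this

theorem joined_SO (hd : 2 ≤ d) {A B : M d} (hA : A ∈ SO d) (hB : B ∈ SO d) :
    JoinedIn (SO d) A B := (joined_one hd hA).symm.trans (joined_one hd hB)

/-- a unit vector orthogonal to fewer than `d` given vectors -/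
lemma exists_unit_orth {ι : Type*} (T : Finset ι) (u : ι → E d) (hT : T.card < d) :
    ∃ w : E d, ‖w‖ = 1 ∧ ∀ i ∈ T, inner ℝ (u i) w = 0 := by
  classical
  have h1 : Module.finrank ℝ (Submodule.span ℝ ((T.image u : Finset (E d)) : Set (E d))) < d :=
    lt_of_le_of_lt ((finrank_span_finset_le_card _).trans Finset.card_image_le) hT
  have h2 := Submodule.finrank_add_finrank_orthogonal
    (Submodule.span ℝ ((T.image u : Finset (E d)) : Set (E d)))
  rw [finrank_euclideanSpace_fin] at h2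
  have h3 : (Submodule.span ℝ ((T.image u : Finset (E d)) : Set (E d)))ᗮ ≠ ⊥ := by
    intro h
    rw [h, finrank_bot] at h2
    omega
  obtain ⟨w, hw, hw0⟩ := Submodule.exists_mem_ne_zero_of_ne_bot h3
  refine ⟨‖w‖⁻¹ • w, norm_smul_inv_norm hw0, fun i hi => ?_⟩
  rw [inner_smul_right, Submodule.inner_right_of_mem_orthogonal
    (Submodule.subset_span (by simpa using ⟨i, hi, rfl⟩)) hw, mul_zero]

/-- rotations are transitive on the unit sphere -/
lemma exists_rot (hd : 2 ≤ d) {e w : E d} (he : ‖e‖ = 1) (hw : ‖w‖ = 1) :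
    ∃ A ∈ SO d, act A e = w := by
  by_cases h : e = w
  · exact ⟨1, SO_one, by rw [act_one, h]⟩
  obtain ⟨f, hf, hfe⟩ := exists_unit_orth (d := d) ({()} : Finset Unit) (fun _ => e)
    (by simp; omega)
  have hf0 : f ≠ 0 := by rintro rfl; simp at hf
  refine ⟨rf (e - w) * rf f, rf_pair_mem (sub_ne_zero.mpr h) hf0, ?_⟩
  rw [act_mul, act_rf f e, real_inner_comm, hfe () (by simp)]
  simp only [zero_div, mul_zero, zero_smul, sub_zero]
  rw [act_rf']
  exact Submodule.reflection_sub (he.trans hw.symm)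

end Pool.Agent.P.MP_8dda54_gt.Gen
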