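import Pool.Agent.P.MP_8dda54_gt.Cap

set_option autoImplicit false

namespace Pool.Agent.P.MP_8dda54_gt.VariantCapBall
open Pool.Agent.P.MP_8dda54_gt

/-- `(ρ, x)` is an `S`-copy in `K`: `ρ` is a rotation and `ρ(S) + x ⊆ K`. -/
def IsCopy (S K : Set (EuclideanSpace ℝ (Fin 3))) (ρ : Matrix (Fin 3) (Fin 3) ℝ)
    (x : EuclideanSpace ℝ (Fin 3)) : Prop :=
  ρ ∈ Matrix.specialOrthogonalGroup (Fin 3) ℝ ∧ ∀ v ∈ S, Matrix.toEuclideanLin ρ v + x ∈ K

/-- The Kakeya rotation property in `ℝ³`. -/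
def RotationProperty (S : Set (EuclideanSpace ℝ (Fin 3))) : Prop :=
  ∀ K : Set (EuclideanSpace ℝ (Fin 3)), Convex ℝ K → IsCompact K →
    (∀ ρ ∈ Matrix.specialOrthogonalGroup (Fin 3) ℝ, ∃ x, IsCopy S K ρ x) →
    ∀ ρ₀ x₀ ρ₁ x₁, IsCopy S K ρ₀ x₀ → IsCopy S K ρ₁ x₁ →
      ∃ (γ : unitInterval → Matrix (Fin 3) (Fin 3) ℝ)
        (δ : unitInterval → EuclideanSpace ℝ (Fin 3)),
        Continuous γ ∧ Continuous δ ∧ γ 0 = ρ₀ ∧ δ 0 = x₀ ∧ γ 1 = ρ₁ ∧ δ 1 = x₁ ∧
        ∀ t, IsCopy S K (γ t) (δ t)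

/-- The unit ball of `ℝ³` with a cap cut off is a convex body with interior points, is not a ball,
and has the Kakeya rotation property. -/
theorem result : ∀ S : Set (EuclideanSpace ℝ (Fin 3)), S = {v | ‖v‖ ≤ 1 ∧ v 0 ≤ 3 / 4} →
    Convex ℝ S ∧ IsCompact S ∧ (interior S).Nonempty ∧
    (∀ (c : EuclideanSpace ℝ (Fin 3)) (r : ℝ), S ≠ Metric.closedBall c r) ∧
    RotationProperty S := by
  intro S hS
  have e : S = capBall := by
    rw [hS]
    ext v
    simp only [capBall, Set.mem_inter_iff, mem_closedBall_zero_iff, Set.mem_ofPred_eq]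
  subst e
  have sub : Metric.ball (0 : E3) (3 / 4) ⊆ capBall := by
    intro v hv
    rw [mem_ball_zero_iff] at hv
    have h := normsq v
    have := norm_nonneg v
    rw [mem_capBall]
    constructor <;> nlinarith [sq_nonneg (v 0), sq_nonneg (v 1), sq_nonneg (v 2)]
  have im : ∀ (K : Set E3) (ρ : Matrix (Fin 3) (Fin 3) ℝ) (x : E3),
      (ρ, x) ∈ copies K ↔ IsCopy capBall K ρ x := fun K ρ x =>
    and_congr Iff.rfl Set.image_subset_iff
  refine ⟨convex_capBall, isCompact_capBall,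
    ⟨0, interior_maximal sub Metric.isOpen_ball (Metric.mem_ball_self (by norm_num))⟩,
    fun c r h => ?_, fun K hK hKc h ρ₀ x₀ ρ₁ x₁ h₀ h₁ => ?_⟩
  · rcases lt_trichotomy r 0 with hr | rfl | hr
    · have := sub (Metric.mem_ball_self (by norm_num))
      rw [h, Metric.closedBall_eq_empty.2 hr] at this
      exact this
    · exact not_point ⟨c, by rw [h, Metric.closedBall_zero]⟩
    · exact not_ball ⟨c, r, hr, h⟩
  · obtain ⟨p, hp⟩ := joined_copies K hK hKc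
      (fun ρ hρ => (h ρ hρ).imp fun x hx => ((im K ρ x).2 hx).2)
      (ρ₀, x₀) (ρ₁, x₁) ((im K _ _).2 h₀) ((im K _ _).2 h₁)
    exact ⟨fun t => (p t).1, fun t => (p t).2, continuous_fst.comp p.continuous,
      continuous_snd.comp p.continuous, by simp, by simp, by simp, by simp,
      fun t => (im K _ _).1 (hp t)⟩

end Pool.Agent.P.MP_8dda54_gt.VariantCapBall
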